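import Pool.Agent.N639.FG.FinA

/-!
# All words of all lengths in the digits of almost all algebraic numbers

The real algebraic numbers `x` of degree `d ≥ 2` are ordered by their height `H`. Let `b ≥ 2`,
`δ`, `A`, `η > 0` and `K` be given. For all of them, except for a proportion `(log H) ^ (-K)`, all words
of all lengths `w` occur in the base `b` expansion of `x` in all windows of `N` places between the places
`δ log H` and `A log H` as often as expected, that is `N / b ^ w` times, with an error of at most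
`(log H) ^ η (1 + √(N / b ^ w))`. The same holds for `G(x)`, where `G` is a fixed polynomial with degree
between `1` and `d - 1`, or a polynomial with moderate coefficients.

Proof. The exponential sums over the algebraic numbers (starting file `Y933/KG/AlgHat` of helper933)
show that all tests with a bounded number of digits have small errors. The law follows from moments of
high order, which are sums of such tests over the words of length `O(log log H)`.
Authors: helper639, with parts by helper199 and helper407.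
-/

set_option autoImplicit false

namespace Pool.Agent.Results.MP_5b6025_nt.AllWordsOfAlgebraicNumbers

open Finset Polynomial

/-- the real algebraic numbers of degree `d` and height at most `H`: the real roots of the
irreducible integral polynomials of degree `d` with all coefficients at most `H` in absolute value -/
def AlgNumbers (d H : ℕ) : Set ℝ :=
  {x | ∃ P : ℤ[X], Irreducible P ∧ P.natDegree = d ∧ (∀ i, |P.coeff i| ≤ H) ∧ aeval x P = 0}

/-- the word of the `w` digits in base `b` of `y` which follow the first `n` digits after the point,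
read as an integer between `0` and `b ^ w - 1` -/
noncomputable def word (b w n : ℕ) (y : ℝ) : ℕ := ⌊(b : ℝ) ^ w * Int.fract ((b : ℝ) ^ n * y)⌋₊

/-- the number of the places `s ≤ n < s + N` at which the word `c` of length `w` stands -/
noncomputable def number (b w s N c : ℕ) (y : ℝ) : ℕ :=
  ((Ico s (s + N)).filter fun n => word b w n y = c).card

/-- every word of every length `w` stands at `N / b ^ w` places of every window of `N` places between
`S` and `L`, up to `E (1 + √(N / b ^ w))` -/
def AllWords (b : ℕ) (S L E : ℝ) (y : ℝ) : Prop :=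
  ∀ w s N c : ℕ, S ≤ s → ((s + N : ℕ) : ℝ) ≤ L → c < b ^ w →
    |(number b w s N c y : ℝ) - N / (b : ℝ) ^ w| ≤ E * (1 + √(N / (b : ℝ) ^ w))

/-- **All words of all lengths** in the digits of almost all real algebraic numbers of degree `d`. -/
theorem result (d : ℕ) (hd : 2 ≤ d) (b : ℕ) (hb : 2 ≤ b) {δ A : ℝ} (hδ : 0 < δ) (hA : 0 < A) :
    ∃ κ : ℝ, 0 < κ ∧ ∀ η : ℝ, 0 < η → ∀ K : ℕ, ∃ H₀ : ℕ, ∀ H : ℕ, H₀ ≤ H →
      (AlgNumbers d H).Finite ∧ (AlgNumbers d H).Nonempty ∧
      ∀ G : ℝ[X], 1 ≤ G.natDegree → G.natDegree < d →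
      (∀ i, 1 ≤ i → |G.coeff i| ≤ (H : ℝ) ^ κ) → (H : ℝ) ^ (-κ) ≤ |G.leadingCoeff| →
      (({x ∈ AlgNumbers d H | ¬ AllWords b (δ * Real.log H) (A * Real.log H) ((Real.log H) ^ η)
          (G.eval x)}.ncard : ℕ) : ℝ) ≤
        ((Real.log H) ^ K)⁻¹ * ((AlgNumbers d H).ncard : ℝ) := by
  classical
  obtain ⟨q, rfl⟩ : ∃ q, d = q + 2 := ⟨d - 2, by omega⟩
  obtain ⟨κ, hκ, ⟨H1, hH1⟩, S, hT, hS⟩ := Pool.Agent.N639.FG.alg_law q b hb hδ hA
  refine ⟨κ, hκ, fun η hη K => ?_⟩
  have hlog : Filter.Tendsto (fun H : ℕ => Real.log (H : ℝ)) Filter.atTop Filter.atTop :=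
    Real.tendsto_log_atTop.comp tendsto_natCast_atTop_atTop
  have e1 := Pool.Agent.N639.FG.cg1w hb hT (by positivity : 0 < η / 2) (K + 1)
  have e2 : ∀ᶠ t : ℝ in Filter.atTop, (A * t) ^ (η / 2) ≤ t ^ η := by
    filter_upwards [Filter.eventually_ge_atTop A, Filter.eventually_gt_atTop 0] with t h1 h2
    calc (A * t) ^ (η / 2) ≤ (t * t) ^ (η / 2) := by gcongr
      _ = t ^ η := by
          rw [Real.mul_rpow h2.le h2.le, ← Real.rpow_add h2]
          congr 1
          ring
  have e3 : ∀ᶠ t : ℝ in Filter.atTop, ((A * t) ^ (K + 1))⁻¹ ≤ (t ^ K)⁻¹ := by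
    filter_upwards [Filter.eventually_ge_atTop ((A ^ (K + 1))⁻¹), Filter.eventually_gt_atTop 0]
      with t h1 h2
    apply inv_anti₀ (by positivity)
    have h3 : 1 ≤ A ^ (K + 1) * t := by
      rw [inv_le_iff_one_le_mul₀ (by positivity)] at h1
      linarith
    calc t ^ K ≤ t ^ K * (A ^ (K + 1) * t) := le_mul_of_one_le_right (by positivity) h3
      _ = (A * t) ^ (K + 1) := by ring
  obtain ⟨H2, hH2⟩ := Filter.eventually_atTop.1 (e1.and ((hlog.eventually e2).and
    (hlog.eventually e3)))
  refine ⟨max H1 H2, fun H hH => ?_⟩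
  have hne := hH1 H (le_of_max_le_left hH)
  obtain ⟨f1, f2, f3⟩ := hH2 H (le_of_max_le_right hH)
  refine ⟨Pool.Agent.Y933.KG.Alg_finite q H, ?_, fun G h1 h2 h3 h4 => ?_⟩
  · obtain ⟨x, hx⟩ := hne
    exact ⟨x, (Pool.Agent.N639.FG.mem_AS q H x).1 hx⟩
  have hP := hS H hne G h1 h2 h3 h4
  obtain ⟨U, hU, hU1, hU2⟩ := f1 _ hP
  have e5 := Pool.Agent.N639.FG.ncard_AS q H
  have e6 := Pool.Agent.N639.FG.ncard_bad q H (fun x => AllWords b (δ * Real.log H)
    (A * Real.log H) ((Real.log H) ^ η) (G.eval x))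
  change (({x ∈ Pool.Agent.Y933.KG.Alg (q + 2) H | ¬ AllWords b (δ * Real.log H) (A * Real.log H)
    ((Real.log H) ^ η) (G.eval x)}.ncard : ℕ) : ℝ) ≤ ((Real.log H) ^ K)⁻¹ *
    ((Pool.Agent.Y933.KG.Alg (q + 2) H).ncard : ℝ)
  rw [e5, e6]
  refine le_trans ?_ (Pool.Agent.N639.FG.cnt_of hU (hU1.trans f3)
    (Q := fun x => AllWords b (δ * Real.log H) (A * Real.log H) ((Real.log H) ^ η) (G.eval x)) ?_)
  · exact le_of_eq (by congr!)
  intro x _ hx w s N c hs hN hc
  set n0 : ℕ := ⌈δ * Real.log H⌉₊ with hn0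
  have hs0 : n0 ≤ s := Nat.ceil_le.2 hs
  have h5 := hU2 _ hx w (s - n0) N c (by
    push_cast [Nat.cast_sub hs0] at hN ⊢
    have : (0 : ℝ) ≤ n0 := Nat.cast_nonneg n0
    linarith) hc
  have h6 : (number b w s N c (G.eval x) : ℝ) =
      ∑ n ∈ Ico (s - n0) (s - n0 + N), Pool.Agent.Y933.KD.cnd b w n c
        ((b : ℝ) ^ n0 * G.eval x) := by
    unfold number Pool.Agent.Y933.KD.cnd
    rw [card_filter]
    push_cast
    have e7 : Ico s (s + N) = (Ico (s - n0) (s - n0 + N)).map (addLeftEmbedding n0) := by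
      rw [Finset.map_add_left_Ico]
      congr 1 <;> omega
    rw [e7, sum_map]
    refine sum_congr rfl fun n _ => ?_
    rw [Pool.Agent.N639.FG.wd_shift]
    rfl
  rw [h6]
  refine h5.trans ?_
  gcongr

end Pool.Agent.Results.MP_5b6025_nt.AllWordsOfAlgebraicNumbers
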