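import Pool.Agent.N639.FG.Fin4

/-!
# The complexity law for the digits of almost all algebraic numbers

Let `p(w)` be the number of different words of length `w` at `N` consecutive places of the base `b`
expansion of a number. For random digits `p(w)` is about `b ^ w (1 - exp (-N / b ^ w))`. We show that
this holds for all `w` at the same time, up to a factor `1 + ε`, for almost all real algebraic numbers
`x` of degree `d ≥ 2`, ordered by their height `H`, and all windows of `N → ∞` places between the places
`δ log H` and `A log H`; and for `G(x)`, where `G` is a polynomial with degree between `1` and `d - 1` and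
moderate coefficients.

Proof. The exponential sums over the algebraic numbers (starting file `Y933/KG/AlgHat` of helper933)
show that all tests with a bounded number of digits have small errors. They give the binomial moments
of the number of occurrences of words without large overlaps, hence a Poisson law for one word and for
two words, and so mean and variance of the number of missing words.
Authors: helper639, with parts by helper199, helper711, helper79 and helper407.
-/

set_option autoImplicit false

namespace Pool.Agent.Results.MP_5b6025_nt.ComplexityOfAlgebraicNumbers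

open Finset Polynomial

/-- the real algebraic numbers of degree `d` and height at most `H`: the real roots of the
irreducible integral polynomials of degree `d` with all coefficients at most `H` in absolute value -/
def AlgNumbers (d H : ℕ) : Set ℝ :=
  {x | ∃ P : ℤ[X], Irreducible P ∧ P.natDegree = d ∧ (∀ i, |P.coeff i| ≤ H) ∧ aeval x P = 0}

/-- the word of the `w` digits in base `b` of `y` which follow the first `n` digits after the point,
read as an integer between `0` and `b ^ w - 1` -/
noncomputable def word (b w n : ℕ) (y : ℝ) : ℕ := ⌊(b : ℝ) ^ w * Int.fract ((b : ℝ) ^ n * y)⌋₊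

/-- the number of different words of length `w` at the places `s ≤ n < s + N` -/
noncomputable def different (b w s N : ℕ) (y : ℝ) : ℕ := ((Ico s (s + N)).image (word b w · y)).card

/-- the expected number of different words of length `w` at `N` places -/
noncomputable def expected (b w N : ℕ) : ℝ := (b : ℝ) ^ w * (1 - Real.exp (-(N / (b : ℝ) ^ w)))

/-- **The complexity law** for the digits of almost all real algebraic numbers of degree `d`. -/
theorem result (d : ℕ) (hd : 2 ≤ d) (b : ℕ) (hb : 2 ≤ b) {δ A : ℝ} (hδ : 0 < δ) (hA : 0 < A) :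
    ∃ κ : ℝ, 0 < κ ∧ ∀ ε : ℝ, 0 < ε → ∃ N₀ H₀ : ℕ, ∀ H : ℕ, H₀ ≤ H →
      (AlgNumbers d H).Finite ∧ (AlgNumbers d H).Nonempty ∧
      ∀ G : ℝ[X], 1 ≤ G.natDegree → G.natDegree < d →
      (∀ i, 1 ≤ i → |G.coeff i| ≤ (H : ℝ) ^ κ) → (H : ℝ) ^ (-κ) ≤ |G.leadingCoeff| →
      ∀ s N : ℕ, N₀ ≤ N → δ * Real.log H ≤ s → ((s + N : ℕ) : ℝ) ≤ A * Real.log H →
      (({x ∈ AlgNumbers d H | ¬ ∀ w : ℕ,
          |(different b w s N (G.eval x) : ℝ) - expected b w N| ≤ ε * expected b w N}.ncard : ℕ) :
            ℝ) ≤ ε * ((AlgNumbers d H).ncard : ℝ) := by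
  classical
  obtain ⟨q, rfl⟩ : ∃ q, d = q + 2 := ⟨d - 2, by omega⟩
  obtain ⟨κ, hκ, ⟨H1, hH1⟩, S, hT, hS⟩ := Pool.Agent.N639.FG.alg_law q b hb hδ hA
  refine ⟨κ, hκ, fun ε hε => ?_⟩
  obtain ⟨N0, h0⟩ := Pool.Agent.N639.FG.cg4w hb hT hε
  obtain ⟨H2, hH2⟩ := Filter.eventually_atTop.1 h0
  refine ⟨N0, max H1 H2, fun H hH => ?_⟩
  have hne := hH1 H (le_of_max_le_left hH)
  have f1 := hH2 H (le_of_max_le_right hH)
  refine ⟨Pool.Agent.Y933.KG.Alg_finite q H, ?_, fun G h1 h2 h3 h4 s N hN hs hsN => ?_⟩
  · obtain ⟨x, hx⟩ := hne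
    exact ⟨x, (Pool.Agent.N639.FG.mem_AS q H x).1 hx⟩
  have hP := hS H hne G h1 h2 h3 h4
  set n0 : ℕ := ⌈δ * Real.log H⌉₊ with hn0
  have hs0 : n0 ≤ s := Nat.ceil_le.2 hs
  have hn00 : (0 : ℝ) ≤ n0 := Nat.cast_nonneg n0
  have hN00 : (0 : ℝ) ≤ N := Nat.cast_nonneg N
  have hsr : (n0 : ℝ) ≤ s := by exact_mod_cast hs0
  obtain ⟨U, hU, hU1, hU2⟩ := f1 _ hP (s - n0) N hN (by
    push_cast [Nat.cast_sub hs0] at hsN ⊢
    linarith) (by
    push_cast at hsN
    linarith)
  have e5 := Pool.Agent.N639.FG.ncard_AS q H
  have e6 := Pool.Agent.N639.FG.ncard_bad q H (fun x => ∀ w : ℕ,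
    |(different b w s N (G.eval x) : ℝ) - expected b w N| ≤ ε * expected b w N)
  change (({x ∈ Pool.Agent.Y933.KG.Alg (q + 2) H | ¬ ∀ w : ℕ,
    |(different b w s N (G.eval x) : ℝ) - expected b w N| ≤ ε * expected b w N}.ncard : ℕ) : ℝ) ≤
    ε * ((Pool.Agent.Y933.KG.Alg (q + 2) H).ncard : ℝ)
  rw [e5, e6]
  refine le_trans ?_ (Pool.Agent.N639.FG.cnt_of hU hU1
    (Q := fun x => ∀ w : ℕ,
      |(different b w s N (G.eval x) : ℝ) - expected b w N| ≤ ε * expected b w N) ?_)
  · exact le_of_eq (by congr!)
  intro x _ hx w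
  have h5 := hU2 _ hx w
  have h6 : Pool.Agent.N639.FG.cw b w (s - n0) N ((b : ℝ) ^ n0 * G.eval x) =
      different b w s N (G.eval x) := by
    unfold Pool.Agent.N639.FG.cw different
    congr 1
    have e7 : Ico s (s + N) = (Ico (s - n0) (s - n0 + N)).image (fun n => n0 + n) := by
      rw [Finset.image_add_left_Ico]
      congr 1 <;> omega
    rw [e7, image_image]
    refine image_congr fun n _ => ?_
    simp only [Function.comp_apply]
    exact Pool.Agent.N639.FG.wd_shift b w n n0 (G.eval x)
  rw [h6] at h5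
  exact h5

end Pool.Agent.Results.MP_5b6025_nt.ComplexityOfAlgebraicNumbers
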