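import Pool.Agent.N129.FC.Family

/-!
# Algebraic irrational numbers whose digits change in short clusters separated by long runs

Let `x` be a real algebraic irrational number, `b ≥ 2`, and let `x = ∑ g_k b^(-k)` be its usual
base `b` expansion or any other expansion with bounded integer digits.  Fix a linear relation
`q_0 g_k + … + q_m g_(k+m) = e` between consecutive digits with `q_0 + q_1 b + … + q_m b^m ≠ 0` and
let `S` be the set of the places `k` where it fails (nonzero digits: `q = (1)`, `e = 0`; digit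
changes: `q = (-1, 1)`, `e = 0`).  In general one knows `c (log N)^3 / (log log N)^5` elements of `S`
up to `N`.

**Theorem.** Let `0 < γ < 1/2` and `α + γ < 1`.  For every `N` and every `ψ` with `X ≤ ψ ≤ log N`
(`X` depends on `x`, `b`, the expansion, the relation, `α` and `γ`): if no two elements of
`S ∩ [N exp(-ψ), N]` have a distance strictly between `ψ^α` and `exp ψ`, then `S` has at least
`exp(ψ^γ)` elements up to `N`.

So a number whose digit changes stand in clusters of length `(log k)^α` separated by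
`exp((log k)^β)`, `β ≤ 1`, has at least `exp((log N)^γ)` of them up to `N` for every
`γ < min(β/2, β - α)`, or is rational or transcendental; `exp((log log k)^(2 + δ))` instead of
`exp((log k)^β)` suffices for more than every power of `log N`.  In `Pool.Agent.N129.FC.family` it is
deduced that `∑ ε_k b^(-⌊exp((log k)^C)⌋)` is transcendental for all `C > 2` and all bounded nonzero
integers `ε_k`.

The proof uses all primes `q ≤ ψ^γ'` at once.  For such a prime the value modulo `q` of the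
truncated expansion (times `b^(-R)`) does not change from `R` to `R / q^(d!)`, apart from few `R`.
If a cluster near `k` is visible modulo `q` then some cluster near `k / q^(d!)` is.  A cluster of
length `ψ^α` is visible modulo all but `O(ψ^α)` primes, so that one cluster near `N` has descendants
near `N / T` for at least `2^i` products `T` of `i` of the numbers `q^(d!)`.
-/

set_option autoImplicit false

namespace Pool.Agent.Results.MP_5b6025_nt.FrobeniusClosure

open Finset
open Pool.Agent.H393R2.DC (dlt)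

theorem result (x : ℝ) (halg : IsAlgebraic ℚ x) (hirr : Irrational x) (b : ℕ) (hb : 2 ≤ b)
    (g : ℕ → ℤ) (M : ℤ) (hg : ∀ k, |g k| ≤ M)
    (hsum : HasSum (fun k : ℕ => (g k : ℝ) / (b : ℝ) ^ k) x)
    (m : ℕ) (q : ℕ → ℤ) (hq : ∑ j ∈ range (m + 1), q j * (b : ℤ) ^ j ≠ 0) (e : ℤ)
    (α γ : ℝ) (hγ0 : 0 < γ) (hγ : γ < 1 / 2) (hαγ : α + γ < 1) :
    ∃ X : ℝ, ∀ (N : ℕ) (ψ : ℝ), X ≤ ψ → ψ ≤ Real.log N →
      (∀ k k' : ℕ, N * Real.exp (-ψ) ≤ k → k < k' → k' ≤ N →
        ∑ j ∈ range (m + 1), q j * g (k + j) ≠ e → ∑ j ∈ range (m + 1), q j * g (k' + j) ≠ e →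
        (k' : ℝ) - k ≤ ψ ^ α ∨ Real.exp ψ ≤ (k' : ℝ) - k) →
      Real.exp (ψ ^ γ) ≤
        (((Icc 1 N).filter (fun k : ℕ => ∑ j ∈ range (m + 1), q j * g (k + j) ≠ e)).card : ℝ) := by
  obtain ⟨W, hWs, hWa⟩ := Pool.Agent.N129.FC.exists_W x b hb g M hg hsum
  have hb2 : (2 : ℝ) ≤ b := by exact_mod_cast hb
  have hb1 : (0 : ℝ) ≤ (b : ℝ) - 1 := by linarith
  set Y : ℕ → ℤ := fun k => ((b : ℤ) - 1) * ∑ j ∈ range (m + 1), q j * W (k + j) + e with hY
  have hYs : ∀ k, Y (k + 1) - b * Y k =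
      ((b : ℤ) - 1) * (∑ j ∈ range (m + 1), q j * g (k + 1 + j) - e) := by
    intro k
    have h1 : ∑ j ∈ range (m + 1), q j * W (k + 1 + j) =
        b * ∑ j ∈ range (m + 1), q j * W (k + j) + ∑ j ∈ range (m + 1), q j * g (k + 1 + j) := by
      rw [Finset.mul_sum, ← Finset.sum_add_distrib]
      apply Finset.sum_congr rfl
      intro j _
      have e1 : k + 1 + j = k + j + 1 := by ring
      rw [e1, hWs (k + j)]
      ring
    simp only [hY]
    rw [h1]
    ring
  set T : ℤ := ((b : ℤ) - 1) * ∑ j ∈ range (m + 1), q j * (b : ℤ) ^ j with hT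
  have hbZ : ((b : ℤ) - 1) ≠ 0 := by
    have : (2 : ℤ) ≤ b := by exact_mod_cast hb
    omega
  have hT0 : T ≠ 0 := mul_ne_zero hbZ hq
  have hYa : ∀ k, |(Y k : ℝ) - (b : ℝ) ^ k * (T * x)| ≤
      ((b : ℝ) - 1) * ∑ j ∈ range (m + 1), |(q j : ℝ)| * M + |(e : ℝ)| := by
    intro k
    have e1 : (Y k : ℝ) - (b : ℝ) ^ k * (T * x) =
        ((b : ℝ) - 1) * ∑ j ∈ range (m + 1), (q j : ℝ) *
          ((W (k + j) : ℝ) - (b : ℝ) ^ (k + j) * x) + e := by
      have e2 : ∑ j ∈ range (m + 1), (q j : ℝ) * ((W (k + j) : ℝ) - (b : ℝ) ^ (k + j) * x) =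
          ∑ j ∈ range (m + 1), (q j : ℝ) * (W (k + j) : ℝ) -
            (b : ℝ) ^ k * ((∑ j ∈ range (m + 1), (q j : ℝ) * (b : ℝ) ^ j) * x) := by
        rw [Finset.sum_mul, Finset.mul_sum, ← Finset.sum_sub_distrib]
        apply Finset.sum_congr rfl
        intro j _
        rw [pow_add]; ring
      rw [e2]
      simp only [hY, hT]
      push_cast
      ring
    rw [e1]
    refine (abs_add_le _ _).trans ?_
    apply add_le_add _ le_rfl
    rw [abs_mul, abs_of_nonneg hb1]
    apply mul_le_mul_of_nonneg_left _ hb1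
    refine (Finset.abs_sum_le_sum_abs _ _).trans ?_
    apply Finset.sum_le_sum
    intro j _
    rw [abs_mul]
    exact mul_le_mul_of_nonneg_left (hWa (k + j)) (abs_nonneg _)
  have hd : ∀ k, 1 ≤ k → (dlt b Y k ≠ 0 ↔ ∑ j ∈ range (m + 1), q j * g (k + j) ≠ e) := by
    intro k hk
    obtain ⟨k, rfl⟩ : ∃ j, k = j + 1 := ⟨k - 1, by omega⟩
    have h1 : dlt b Y (k + 1) =
        ((b : ℤ) - 1) * (∑ j ∈ range (m + 1), q j * g (k + 1 + j) - e) := hYs k
    rw [h1, not_iff_not, mul_eq_zero]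
    exact ⟨fun h => sub_eq_zero.1 (h.resolve_left hbZ), fun h => Or.inr (sub_eq_zero.2 h)⟩
  obtain ⟨X, hX⟩ := Pool.Agent.N129.FC.gen_seq x halg hirr b hb T hT0 _ Y hYa α γ hγ0 hγ hαγ
  refine ⟨X, fun N ψ h1 h2 h3 => ?_⟩
  refine (hX N ψ h1 h2 (fun k k' hk0 hk1 hkk hk' hgk hgk' => ?_)).trans (le_of_eq ?_)
  · exact h3 k k' hk1 hkk hk' ((hd k hk0).1 hgk) ((hd k' (by omega)).1 hgk')
  · congr 2
    apply Finset.filter_congr
    intro k hk
    exact hd k (Finset.mem_Icc.1 hk).1

end Pool.Agent.Results.MP_5b6025_nt.FrobeniusClosure
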