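import Pool.Agent.N639.FG.Fin4

/-!
# The Poisson law for the words in the digits of algebraic numbers

The real algebraic numbers `x` of degree `d ≥ 2` are ordered by their height `H`. Consider a set of `r`
words of length `w` in base `b` such that two of them never overlap in more than half of their length,
and a window of `N` places of `x` between the places `δ log H` and `A log H`, where `N → ∞` and
`N / b ^ w` is bounded from above and below. The number of occurrences of the words in the window, for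
random `x`, has asymptotically the Poisson distribution with the mean `r N / b ^ w`, uniformly in the
words and the window. So the waiting time for a long word is asymptotically exponential. The same holds
for `G(x)`, where `G` is a polynomial with degree between `1` and `d - 1` and moderate coefficients.

Proof. The exponential sums over the algebraic numbers (starting file `Y933/KG/AlgHat` of helper933)
show that all tests with a bounded number of digits have small errors. The binomial moments of the number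
of occurrences are sums of such tests over the words of length `O(log log H)`.
Authors: helper639, with parts by helper199, helper711 and helper79.
-/

set_option autoImplicit false

namespace Pool.Agent.Results.MP_5b6025_nt.PoissonLawOfWords

open Finset Polynomial

/-- the real algebraic numbers of degree `d` and height at most `H`: the real roots of the
irreducible integral polynomials of degree `d` with all coefficients at most `H` in absolute value -/
def AlgNumbers (d H : ℕ) : Set ℝ :=
  {x | ∃ P : ℤ[X], Irreducible P ∧ P.natDegree = d ∧ (∀ i, |P.coeff i| ≤ H) ∧ aeval x P = 0}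

/-- the word of the `w` digits in base `b` of `y` which follow the first `n` digits after the point,
read as an integer between `0` and `b ^ w - 1` -/
noncomputable def word (b w n : ℕ) (y : ℝ) : ℕ := ⌊(b : ℝ) ^ w * Int.fract ((b : ℝ) ^ n * y)⌋₊

/-- the number of the places `s ≤ n < s + N` at which a word of the set `W` stands -/
noncomputable def number (b w s N : ℕ) (W : Finset ℕ) (y : ℝ) : ℕ :=
  ((Ico s (s + N)).filter fun n => word b w n y ∈ W).card

/-- the last `w - k` digits of a word of `W` are never the first `w - k` digits of a word of `W`, for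
`1 ≤ k ≤ w / 2` -/
def NoLargeOverlap (b w : ℕ) (W : Finset ℕ) : Prop :=
  ∀ c ∈ W, ∀ c' ∈ W, ∀ k : ℕ, 1 ≤ k → 2 * k ≤ w → c % b ^ (w - k) ≠ c' / b ^ k

/-- **The Poisson law** for the words in the digits of the real algebraic numbers of degree `d`. -/
theorem result (d : ℕ) (hd : 2 ≤ d) (b : ℕ) (hb : 2 ≤ b) {δ A : ℝ} (hδ : 0 < δ) (hA : 0 < A) :
    ∃ κ : ℝ, 0 < κ ∧ ∀ (r k : ℕ) (Λ ε : ℝ), 0 < Λ → 0 < ε → ∃ N₀ H₀ : ℕ, ∀ H : ℕ, H₀ ≤ H →
      (AlgNumbers d H).Finite ∧ (AlgNumbers d H).Nonempty ∧
      ∀ G : ℝ[X], 1 ≤ G.natDegree → G.natDegree < d →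
      (∀ i, 1 ≤ i → |G.coeff i| ≤ (H : ℝ) ^ κ) → (H : ℝ) ^ (-κ) ≤ |G.leadingCoeff| →
      ∀ (w s N : ℕ) (W : Finset ℕ), N₀ ≤ N → δ * Real.log H ≤ s →
      ((s + N : ℕ) : ℝ) ≤ A * Real.log H → (N : ℝ) ≤ Λ * (b : ℝ) ^ w → (b : ℝ) ^ w ≤ Λ * N →
      W ⊆ range (b ^ w) → W.card = r → NoLargeOverlap b w W →
      |(({x ∈ AlgNumbers d H | number b w s N W (G.eval x) = k}.ncard : ℕ) : ℝ) /
          ((AlgNumbers d H).ncard : ℝ) -
        Real.exp (-(r * (N / (b : ℝ) ^ w))) * (r * (N / (b : ℝ) ^ w)) ^ k / k.factorial| ≤ ε := by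
  classical
  obtain ⟨q, rfl⟩ : ∃ q, d = q + 2 := ⟨d - 2, by omega⟩
  obtain ⟨κ, hκ, ⟨H1, hH1⟩, S, hT, hS⟩ := Pool.Agent.N639.FG.alg_law q b hb hδ hA
  refine ⟨κ, hκ, fun r k Λ ε hΛ hε => ?_⟩
  obtain ⟨N0, h0⟩ := Pool.Agent.N639.FG.cg3w hb hT r k Λ hΛ hε
  obtain ⟨H2, hH2⟩ := Filter.eventually_atTop.1 h0
  refine ⟨N0, max H1 H2, fun H hH => ?_⟩
  have hne := hH1 H (le_of_max_le_left hH)
  have f1 := hH2 H (le_of_max_le_right hH)
  refine ⟨Pool.Agent.Y933.KG.Alg_finite q H, ?_,
    fun G h1 h2 h3 h4 w s N W hN hs hsN g1 g2 g3 g4 g5 => ?_⟩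
  · obtain ⟨x, hx⟩ := hne
    exact ⟨x, (Pool.Agent.N639.FG.mem_AS q H x).1 hx⟩
  have hP := hS H hne G h1 h2 h3 h4
  set n0 : ℕ := ⌈δ * Real.log H⌉₊ with hn0
  have hs0 : n0 ≤ s := Nat.ceil_le.2 hs
  have hn00 : (0 : ℝ) ≤ n0 := Nat.cast_nonneg n0
  have hN00 : (0 : ℝ) ≤ N := Nat.cast_nonneg N
  have hsr : (n0 : ℝ) ≤ s := by exact_mod_cast hs0
  have key := f1 _ hP w (s - n0) N W hN (by
    push_cast [Nat.cast_sub hs0] at hsN ⊢
    linarith) (by
    push_cast at hsN
    linarith) g1 g2 g3 g4 g5
  rw [Pool.Agent.N639.FG.prop_of (Pool.Agent.N639.FG.measurable_NW b w (s - n0) N W) k] at key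
  have e5 := Pool.Agent.N639.FG.ncard_AS q H
  have e6 : {x ∈ Pool.Agent.Y933.KG.Alg (q + 2) H | number b w s N W (G.eval x) = k}.ncard =
      ((Pool.Agent.N639.FG.AS q H).filter fun x => number b w s N W (G.eval x) = k).card := by
    rw [← Set.ncard_coe_finset]
    congr 1
    ext x
    rw [Finset.coe_filter]
    simp only [Set.mem_ofPred_eq, Pool.Agent.N639.FG.mem_AS]
  have h6 : ∀ x : ℝ, Pool.Agent.N639.FG.NW b w (s - n0) N W ((b : ℝ) ^ n0 * G.eval x) =
      number b w s N W (G.eval x) := by
    intro x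
    unfold Pool.Agent.N639.FG.NW number
    have e7 : Ico s (s + N) = (range N).map (addLeftEmbedding s) := by
      rw [Finset.range_eq_Ico, Finset.map_add_left_Ico, Nat.add_zero]
    rw [e7, filter_map, card_map]
    congr 1
    refine filter_congr fun n _ => ?_
    simp only [Function.comp_apply, addLeftEmbedding_apply]
    rw [Pool.Agent.N639.FG.wd_shift]
    have e8 : n0 + (s - n0 + n) = s + n := by omega
    rw [e8]
    rfl
  simp only [h6] at key
  change |(({x ∈ Pool.Agent.Y933.KG.Alg (q + 2) H |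
    number b w s N W (G.eval x) = k}.ncard : ℕ) : ℝ) /
      ((Pool.Agent.Y933.KG.Alg (q + 2) H).ncard : ℝ) -
        Real.exp (-(r * (N / (b : ℝ) ^ w))) * (r * (N / (b : ℝ) ^ w)) ^ k / k.factorial| ≤ ε
  rw [e5, e6]
  convert key using 6

end Pool.Agent.Results.MP_5b6025_nt.PoissonLawOfWords
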